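import Pool.Agent.Helper53.PT.GoalsD
import Pool.Agent.Helper53.PT.B

/-!
# MP_705522_gt: packet PT-KP (positive node of the kernel test)
-/

namespace Pool.Agent.Helper57.PT

open MeasureTheory Set Filter Topology
open Pool.Agent.Helper53.PT

theorem frc_eq {α : Type} (n : ℕ) (f : ℕ → α) : N.frc n f = f n := by
  cases n <;> rfl

theorem mulL_le (a X : ℕ) : aR (N.mulL a X) ≤ aR a * ((X : ℝ) / 64) := by
  unfold aR N.mulL
  have h : ((a * X) >>> 6) * 64 ≤ a * X := by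
    rw [Nat.shiftRight_eq_div_pow]
    exact Nat.div_mul_le_self _ _
  have h' : ((((a * X) >>> 6 : ℕ)) : ℝ) * 64 ≤ (a : ℝ) * X := by exact_mod_cast h
  have e : Nat.shiftRight (Nat.mul a X) 6 = (a * X) >>> 6 := rfl
  rw [e]
  rw [div_mul_div_comm, div_le_div_iff₀ (by positivity) (by positivity)]
  nlinarith

theorem le_mulU (a X : ℕ) : aR a * ((X : ℝ) / 64) ≤ aR (N.mulU a X) := by
  unfold aR N.mulU
  have e : Nat.shiftRight (Nat.add (Nat.mul a X) 63) 6 = (a * X + 63) >>> 6 := rfl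
  rw [e]
  have h : a * X ≤ ((a * X + 63) >>> 6) * 64 := by
    rw [Nat.shiftRight_eq_div_pow]
    have := Nat.div_add_mod (a * X + 63) (2 ^ 6)
    have h2 := Nat.mod_lt (a * X + 63) (show 0 < 2 ^ 6 by norm_num)
    omega
  have h' : (a : ℝ) * X ≤ ((((a * X + 63) >>> 6 : ℕ)) : ℝ) * 64 := by exact_mod_cast h
  rw [div_mul_div_comm, div_le_div_iff₀ (by positivity) (by positivity)]
  nlinarith

theorem mulU_mono {a b : ℕ} (h : a ≤ b) (X : ℕ) : N.mulU a X ≤ N.mulU b X := by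
  unfold N.mulU
  have e : ∀ a : ℕ, Nat.shiftRight (Nat.add (Nat.mul a X) 63) 6 = (a * X + 63) / 2 ^ 6 := fun a => by
    show (a * X + 63) >>> 6 = _
    rw [Nat.shiftRight_eq_div_pow]
  rw [e, e]
  exact Nat.div_le_div_right (by nlinarith [Nat.mul_le_mul_right X h])

theorem aR_mono {a b : ℕ} (h : a ≤ b) : aR a ≤ aR b := by
  unfold aR
  have : (a : ℝ) ≤ b := by exact_mod_cast h
  gcongr

/-- division by `d`, rounded up -/
theorem le_succ_div (a d : ℕ) (hd : 0 < d) : (a : ℝ) ≤ (d : ℝ) * ((Nat.succ (a / d) : ℕ) : ℝ) := by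
  have h : a ≤ d * (a / d + 1) := by
    have := Nat.lt_mul_div_succ a hd
    exact this.le
  have : (a : ℝ) ≤ ((d * (a / d + 1) : ℕ) : ℝ) := by exact_mod_cast h
  simpa using this

theorem kC_zero (D : N.Tab) (a2 b1 x2 y1 : ℕ) (ha : 0 < a2) :
    vR (N.lamU D x2) ≤ aR a2 * vR (N.kC D 0 a2 b1 x2 y1) := by
  have e : N.kC D 0 a2 b1 x2 y1 = Nat.succ ((N.lamU D x2 * 2 ^ 26) / a2) := by
    show Nat.succ ((N.lamU D x2 <<< 26) / a2) = _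
    rw [Nat.shiftLeft_eq]
  rw [e]
  have h := le_succ_div (N.lamU D x2 * 2 ^ 26) a2 ha
  unfold vR aR
  rw [div_mul_div_comm, div_le_div_iff₀ (by positivity) (by positivity)]
  push_cast at h ⊢
  nlinarith

theorem kC_pos (D : N.Tab) (n a2 b1 x2 y1 : ℕ) (hn : 0 < n) (hb : b1 < a2) :
    ((n : ℝ) * aR a2 - 1) * vR (N.lamU D y1) + (1 - (n : ℝ) * aR b1) * vR (N.lamU D x2) ≤
      (aR a2 - aR b1) * vR (N.kC D n a2 b1 x2 y1) := by
  obtain ⟨k, rfl⟩ : ∃ k, n = k + 1 := ⟨n - 1, by omega⟩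
  have e : N.kC D (k + 1) a2 b1 x2 y1 = Nat.succ ((((k + 1) * a2 - N.oneA) * N.lamU D y1 +
      (N.oneA - (k + 1) * b1) * N.lamU D x2) / (a2 - b1)) := rfl
  rw [e]
  set L1 := N.lamU D y1
  set L2 := N.lamU D x2
  have h := le_succ_div (((k + 1) * a2 - N.oneA) * L1 + (N.oneA - (k + 1) * b1) * L2) (a2 - b1)
    (by omega)
  set q := Nat.succ ((((k + 1) * a2 - N.oneA) * L1 + (N.oneA - (k + 1) * b1) * L2) / (a2 - b1))
  have hone : (N.oneA : ℝ) = 2 ^ 26 := by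
    show ((67108864 : ℕ) : ℝ) = 2 ^ 26
    norm_num
  have h1 : (((k + 1 : ℕ) : ℝ) * a2 - 2 ^ 26) ≤ (((k + 1) * a2 - N.oneA : ℕ) : ℝ) := by
    rw [← hone]
    have : (k + 1) * a2 ≤ ((k + 1) * a2 - N.oneA) + N.oneA := by omega
    have h' : (((k + 1) * a2 : ℕ) : ℝ) ≤ ((((k + 1) * a2 - N.oneA) + N.oneA : ℕ) : ℝ) := by
      exact_mod_cast this
    push_cast at h' ⊢
    push_cast at h'
    linarith
  have h2 : ((2 : ℝ) ^ 26 - ((k + 1 : ℕ) : ℝ) * b1) ≤ ((N.oneA - (k + 1) * b1 : ℕ) : ℝ) := by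
    rw [← hone]
    have : N.oneA ≤ (N.oneA - (k + 1) * b1) + (k + 1) * b1 := by omega
    have h' : ((N.oneA : ℕ) : ℝ) ≤ (((N.oneA - (k + 1) * b1) + (k + 1) * b1 : ℕ) : ℝ) := by
      exact_mod_cast this
    push_cast at h' ⊢
    linarith
  have hs : ((a2 - b1 : ℕ) : ℝ) = (a2 : ℝ) - b1 := by
    push_cast [hb.le]; ring
  rw [hs] at h
  have hL1 : (0 : ℝ) ≤ (L1 : ℝ) := Nat.cast_nonneg _
  have hL2 : (0 : ℝ) ≤ (L2 : ℝ) := Nat.cast_nonneg _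
  have h3 : (((k + 1 : ℕ) : ℝ) * a2 - 2 ^ 26) * L1 + ((2 : ℝ) ^ 26 - ((k + 1 : ℕ) : ℝ) * b1) * L2 ≤
      ((a2 : ℝ) - b1) * (q : ℝ) := by
    refine le_trans ?_ h
    push_cast
    push_cast at h1 h2
    nlinarith [mul_le_mul_of_nonneg_right h1 hL1, mul_le_mul_of_nonneg_right h2 hL2]
  have h4 : ((k + 1 : ℕ) : ℝ) * aR a2 - 1 = (((k + 1 : ℕ) : ℝ) * a2 - 2 ^ 26) / 2 ^ 26 := by
    unfold aR; field_simp
  have h5 : 1 - ((k + 1 : ℕ) : ℝ) * aR b1 = ((2 : ℝ) ^ 26 - ((k + 1 : ℕ) : ℝ) * b1) / 2 ^ 26 := by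
    unfold aR; field_simp
  have h6 : aR a2 - aR b1 = ((a2 : ℝ) - b1) / 2 ^ 26 := by unfold aR; ring
  rw [h4, h5, h6]
  unfold vR
  rw [div_mul_div_comm, div_mul_div_comm, div_mul_div_comm, ← add_div]
  gcongr

theorem gKP : GKP := by
  intro hE D θ z T n c t i j a1 a2 b1 m0 m1 hc hS hji hl ha1 ha2 hb1 hb hA hm hx
  have hn : 0 < n := i.pos
  have hm1 : 0 < m1 := by omega
  have ha2p : 0 < a2 := by omega
  set X0 := m0 * m0 with hX0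
  set X1 := m1 * m1 with hX1
  set x2 := N.mulU a2 X1 with hx2
  set y1 := N.mulU b1 X1 with hy1
  set KC := N.kC D c a2 b1 x2 y1 with hKC
  set AV := N.kAv D (N.mulL a1 X0) (N.mulL b1 X0) with hAV
  set w := X1 * m1 - X0 * m0 with hw
  set u := 3 * (X1 * X1 * m1 - X0 * X0 * m0) with hu
  set q := Nat.succ ((u <<< 40) / (640 * w)) with hq
  have ekp : N.kPos D c a1 a2 b1 m0 m1 x2 =
      ((w * AV * N.expLo (KC + q)) >>> 36) / 1536 := by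
    show N.frc _ _ = _
    rw [frc_eq, frc_eq, frc_eq]
    rfl
  -- powers
  have hm3 : X0 * m0 < X1 * m1 := by
    have h1 : m0 * m0 ≤ m1 * m1 := Nat.mul_le_mul hm.le hm.le
    calc X0 * m0 ≤ X1 * m0 := Nat.mul_le_mul_right _ h1
      _ < X1 * m1 := Nat.mul_lt_mul_of_pos_left hm (by positivity)
  have hwp : 0 < w := by omega
  have hwR : (w : ℝ) = (m1 : ℝ) ^ 3 - (m0 : ℝ) ^ 3 := by
    rw [hw]; push_cast [hm3.le]; rw [hX1, hX0]; push_cast; ring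
  have hm5 : X0 * X0 * m0 ≤ X1 * X1 * m1 := by
    have h1 : m0 * m0 ≤ m1 * m1 := Nat.mul_le_mul hm.le hm.le
    exact Nat.mul_le_mul (Nat.mul_le_mul h1 h1) hm.le
  have huR : (u : ℝ) = 3 * ((m1 : ℝ) ^ 5 - (m0 : ℝ) ^ 5) := by
    rw [hu]; push_cast [hm5]; rw [hX1, hX0]; push_cast; ring
  have hwp' : (0 : ℝ) < w := by exact_mod_cast hwp
  -- arguments
  have hξ0 : (0 : ℝ) ≤ (m0 : ℝ) / 8 := by positivity
  have hξ01 : (m0 : ℝ) / 8 < (m1 : ℝ) / 8 := by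
    have : (m0 : ℝ) < m1 := by exact_mod_cast hm
    linarith
  have hX1R : ((X1 : ℕ) : ℝ) / 64 = ((m1 : ℝ) / 8) ^ 2 := by
    rw [hX1]; push_cast; ring
  have hX0R : ((X0 : ℕ) : ℝ) / 64 = ((m0 : ℝ) / 8) ^ 2 := by
    rw [hX0]; push_cast; ring
  have hti : 0 ≤ t i := hS.1 i
  have htj : 0 ≤ t j := hS.1 j
  have hz1 : aR a2 * ((m1 : ℝ) / 8) ^ 2 ≤ xR D.I.kz := by
    rw [← hX1R]
    exact (le_mulU a2 X1).trans (aR_mono hx)
  have hz2 : aR a2 * ((m1 : ℝ) / 8) ^ 2 < z := hz1.trans_lt T.zl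
  have hmono : MonotoneOn (lam θ) (Ico 0 z) :=
    (bRL θ z _ _ _ _ T.fa).2.2.2.2.2.2.2.2.2.2.2.2.1
  have hx2z : aR x2 < z := (aR_mono hx).trans_lt T.zl
  have hy1x : y1 ≤ x2 := mulU_mono hb.le X1
  have hy1z : aR y1 < z := (aR_mono hy1x).trans_lt hx2z
  have aR_nn : ∀ x : ℕ, 0 ≤ aR x := fun x => by unfold aR; positivity
  have hl2 : lam θ (aR a2 * ((m1 : ℝ) / 8) ^ 2) ≤ vR (N.lamU D x2) := by
    refine le_trans (hmono ⟨by have := aR_nn a2; positivity, hz2⟩ ⟨aR_nn _, hx2z⟩ ?_) (T.lam x2 hx)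
    rw [← hX1R]; exact le_mulU a2 X1
  have hl1 : lam θ (aR b1 * ((m1 : ℝ) / 8) ^ 2) ≤ vR (N.lamU D y1) := by
    have h0 : aR b1 * ((m1 : ℝ) / 8) ^ 2 ≤ aR y1 := by rw [← hX1R]; exact le_mulU b1 X1
    refine le_trans (hmono ⟨by have := aR_nn b1; positivity, h0.trans_lt hy1z⟩
      ⟨aR_nn _, hy1z⟩ h0) (T.lam y1 (hy1x.trans hx))
  have hbl : ∀ l, aR b1 ≤ t l ∧ t l ≤ aR a2 := fun l =>
    ⟨hb1.trans (hl l).2, (hl l).1.trans ha2⟩
  have hbR : aR b1 < aR a2 := by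
    unfold aR
    have : (b1 : ℝ) < a2 := by exact_mod_cast hb
    gcongr
  have hprod : ∀ ξ : ℝ, (m0 : ℝ) / 8 < ξ → ξ ≤ (m1 : ℝ) / 8 →
      Real.exp (-ξ ^ 2 / 2 - vR KC) ≤ ∏ l, f0 θ (t l * ξ ^ 2) := by
    intro ξ h1 h2
    have hξ : 0 ≤ ξ := hξ0.trans h1.le
    have hsq : ξ ^ 2 ≤ ((m1 : ℝ) / 8) ^ 2 := by gcongr
    have hcc := bKCC bRL θ z _ _ _ _ T.fa n t (ξ ^ 2) (((m1 : ℝ) / 8) ^ 2) hS (by positivity) hsq
    rcases hc with hc | hc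
    · have h := kC_zero D a2 b1 x2 y1 ha2p
      rw [hKC, hc]
      exact hcc.2 (aR a2) _ _ (lt_of_le_of_lt (aR_nn b1) hbR) (fun l => (hbl l).2) hz2 hl2 h
    · have h := kC_pos D n a2 b1 x2 y1 hn hb
      rw [hKC, hc]
      exact hcc.1 (aR b1) (aR a2) _ _ _ (aR_nn b1) hbR hbl hz2 hl1 hl2 h
  have hav : ∀ ξ : ℝ, (m0 : ℝ) / 8 < ξ → ξ ≤ (m1 : ℝ) / 8 →
      (AV : ℝ) / 2 ^ 36 * ((t i - t j) * ξ ^ 2) ≤ rr θ (t i * ξ ^ 2) - rr θ (t j * ξ ^ 2) := by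
    intro ξ h1 h2
    have hξ : 0 ≤ ξ := hξ0.trans h1.le
    have hξp : 0 < ξ := hξ0.trans_lt h1
    have hsq0 : ((m0 : ℝ) / 8) ^ 2 ≤ ξ ^ 2 := by gcongr
    have hsq : ξ ^ 2 ≤ ((m1 : ℝ) / 8) ^ 2 := by gcongr
    have h := T.kav (N.mulL a1 X0) (N.mulL b1 X0) (t i * ξ ^ 2) (t j * ξ ^ 2) ?_ ?_ ?_ ?_
    · calc (AV : ℝ) / 2 ^ 36 * ((t i - t j) * ξ ^ 2) =
          (AV : ℝ) / 2 ^ 36 * (t i * ξ ^ 2 - t j * ξ ^ 2) := by ring
        _ ≤ _ := h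
    · refine (mulL_le a1 X0).trans ?_
      rw [hX0R]
      have := aR_nn a1
      exact mul_le_mul ha1 hsq0 (by positivity) hti
    · refine (mulL_le b1 X0).trans ?_
      rw [hX0R]
      have := aR_nn b1
      exact mul_le_mul hb1 hsq0 (by positivity) htj
    · exact mul_lt_mul_of_pos_right hji (by positivity)
    · refine le_trans ?_ hz1
      exact mul_le_mul ha2 hsq (by positivity) (aR_nn a2)
  have hmq : (((m1 : ℝ) / 8) ^ 5 - ((m0 : ℝ) / 8) ^ 5) / 5 ≤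
      ((u : ℝ) / (320 * w)) * ((((m1 : ℝ) / 8) ^ 3 - ((m0 : ℝ) / 8) ^ 3) / 3) := by
    have e1 : (((m1 : ℝ) / 8) ^ 3 - ((m0 : ℝ) / 8) ^ 3) / 3 = (w : ℝ) / 1536 := by
      rw [hwR]; ring
    have e2 : (((m1 : ℝ) / 8) ^ 5 - ((m0 : ℝ) / 8) ^ 5) / 5 = (u : ℝ) / 491520 := by
      rw [huR]; ring
    rw [e1, e2]
    apply le_of_eq
    field_simp
    ring
  have hzi : t i * ((m1 : ℝ) / 8) ^ 2 < z :=
    lt_of_le_of_lt (mul_le_mul_of_nonneg_right ha2 (by positivity)) hz2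
  obtain ⟨k1, k2⟩ := bKPOS bRL bKR θ z _ _ _ _ T.fa n t i j ((m0 : ℝ) / 8) ((m1 : ℝ) / 8)
    ((AV : ℝ) / 2 ^ 36) (vR KC) ((u : ℝ) / (320 * w)) hS hji (fun l => (hl l).1) hξ0 hξ01 hzi
    (by positivity) hav hprod hmq
  refine ⟨k1, le_trans (mul_le_mul_of_nonneg_left ?_ (by linarith)) k2⟩
  -- the rounding
  rw [ekp]
  have hexp := (hE (KC + q)).2
  set E := N.expLo (KC + q) with hEd
  have hqR : (u : ℝ) / (320 * w) / 2 ≤ vR q := by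
    have h := le_succ_div (u <<< 40) (640 * w) (by positivity)
    rw [Nat.shiftLeft_eq] at h
    unfold vR
    rw [hq, Nat.shiftLeft_eq]
    rw [div_div, div_le_div_iff₀ (by positivity) (by positivity)]
    push_cast at h ⊢
    nlinarith
  have hexp2 : vR E ≤ Real.exp (-((u : ℝ) / (320 * w)) / 2 - vR KC) := by
    refine hexp.trans (Real.exp_le_exp.2 ?_)
    have : vR (KC + q) = vR KC + vR q := by unfold vR; push_cast; ring
    rw [this]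
    linarith
  have e1 : (((m1 : ℝ) / 8) ^ 3 - ((m0 : ℝ) / 8) ^ 3) / 3 = (w : ℝ) / 1536 := by
    rw [hwR]; ring
  rw [e1]
  have hnat : ((w * AV * E) >>> 36) / 1536 * (2 ^ 36 * 1536) ≤ w * AV * E := by
    rw [Nat.shiftRight_eq_div_pow, Nat.div_div_eq_div_mul]
    exact Nat.div_mul_le_self _ _
  have hnatR : ((((w * AV * E) >>> 36) / 1536 : ℕ) : ℝ) * (2 ^ 36 * 1536) ≤ (w : ℝ) * AV * E := by
    exact_mod_cast hnat
  have h3 : vR (((w * AV * E) >>> 36) / 1536) ≤ (AV : ℝ) / 2 ^ 36 * ((w : ℝ) / 1536) * vR E := by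
    unfold vR
    have : (AV : ℝ) / 2 ^ 36 * ((w : ℝ) / 1536) * ((E : ℝ) / 2 ^ 40) =
        ((w : ℝ) * AV * E) / (2 ^ 36 * 1536) / 2 ^ 40 := by ring
    rw [this]
    gcongr
    rw [le_div_iff₀ (by positivity)]
    exact hnatR
  refine h3.trans ?_
  exact mul_le_mul_of_nonneg_left hexp2 (by positivity)

end Pool.Agent.Helper57.PT
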